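import Mathlib

set_option autoImplicit false
open Classical

namespace Pool.Agent.Results.MP_987215_an.Q2False

noncomputable def zz : Fin 2 → ℂ := ![(1 + 9 * Complex.I) / 10, (1 - 9 * Complex.I) / 10]

lemma z0 : zz 0 = (1 + 9 * Complex.I) / 10 := rfl
lemma z1 : zz 1 = (1 - 9 * Complex.I) / 10 := rfl

lemma c0 : starRingEnd ℂ (zz 0) = zz 1 := by
  rw [z0, z1]; simp [map_ofNat, sub_eq_add_neg]

lemma c1 : starRingEnd ℂ (zz 1) = zz 0 := by rw [← c0, Complex.conj_conj]

lemma zne : zz 0 ≠ zz 1 := by
  rw [z0, z1]; intro h; have := congrArg Complex.im h; norm_num at this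

lemma dg : deriv (fun w : ℂ => w ^ 3 / 6) = fun w => w ^ 2 / 2 := by
  funext w
  exact ((((hasDerivAt_id' w).fun_pow 3).div_const 6).congr_deriv (by norm_num; ring)).deriv

lemma dg2 : deriv (fun w : ℂ => w ^ 2 / 2) = fun w => w := by
  funext w
  exact ((((hasDerivAt_id' w).fun_pow 2).div_const 2).congr_deriv (by norm_num)).deriv

theorem result :
    ¬ (∀ (n : ℕ), 1 ≤ n → ∀ k : ℕ, k ≤ n - 1 → ∀ z : Fin n → ℂ, (∀ j, ‖z j‖ ≤ 1) → (∀ j, 0 ≤ (z j).re) →
    (∀ w : ℂ, w.im ≠ 0 →
      (Finset.univ.filter (fun j => z j = w)).card =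
        (Finset.univ.filter (fun j => z j = starRingEnd ℂ w)).card) →
    (∀ w : ℂ, w.im = 0 → Even (Finset.univ.filter (fun j => z j = w)).card) →
    IsLUB {e : ℝ | ∃ g : ℂ → ℂ, ∃ p : Polynomial ℂ,
        Differentiable ℂ g ∧
        (∀ w : ℂ, ‖w‖ ≤ 1 → ‖iteratedDeriv n g w‖ ≤ 1) ∧
        p.degree < (n : WithBot ℕ) ∧
        (∀ j : Fin n, ∀ i : ℕ, i < (Finset.univ.filter (fun l => z l = z j)).card →
          iteratedDeriv i (fun x => p.eval x) (z j) = iteratedDeriv i g (z j)) ∧
        e = ‖iteratedDeriv k g 0 - iteratedDeriv k (fun x => p.eval x) 0‖}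
      (‖iteratedDeriv k (fun x => (∏ j : Fin n, (Polynomial.X - Polynomial.C (z j))).eval x) 0‖
        / (n.factorial : ℝ))) := by
  intro H
  have h := H 2 (by norm_num) 1 (by norm_num) zz ?_ ?_ ?_ ?_
  · have h2 := @And.left _ _ h (13 / 100) ⟨fun w => w ^ 3 / 6,
      Polynomial.C (-13 / 100) * Polynomial.X - Polynomial.C (41 / 1500), by fun_prop, ?_, ?_, ?_, ?_⟩
    · rw [iteratedDeriv_one, Polynomial.deriv, Fin.prod_univ_two, z0, z1] at h2
      simp only [Polynomial.derivative_mul, Polynomial.derivative_sub, Polynomial.derivative_X,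
        Polynomial.derivative_C, Polynomial.eval_add, Polynomial.eval_mul, Polynomial.eval_sub,
        Polynomial.eval_X, Polynomial.eval_C, Polynomial.eval_one, Polynomial.eval_zero] at h2
      have : (1 - 0) * (0 - (1 - 9 * Complex.I) / 10) + (0 - (1 + 9 * Complex.I) / 10) * (1 - 0)
        = ((-1 / 5 : ℝ) : ℂ) := by push_cast; ring
      rw [this, Complex.norm_real] at h2
      norm_num at h2
    · intro w hw
      rw [iteratedDeriv_succ, iteratedDeriv_one, dg, dg2]; exact hw
    · have : (Polynomial.C (-13 / 100 : ℂ) * Polynomial.X - Polynomial.C (41 / 1500)).degree ≤ 1 := by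
        compute_degree
      exact lt_of_le_of_lt this (by norm_num)
    · intro j i hi
      have hc : (Finset.univ.filter (fun l => zz l = zz j)).card = 1 := by
        rw [Finset.card_filter, Fin.sum_univ_two]
        fin_cases j <;> simp [zne, zne.symm]
      rw [hc] at hi
      obtain rfl : i = 0 := by omega
      simp only [iteratedDeriv_zero, Polynomial.eval_sub, Polynomial.eval_mul, Polynomial.eval_C,
        Polynomial.eval_X]
      fin_cases j
      · show -13 / 100 * zz 0 - 41 / 1500 = zz 0 ^ 3 / 6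
        rw [z0]
        linear_combination (-(243/2000 : ℂ) * Complex.I - 81/2000) * Complex.I_sq
      · show -13 / 100 * zz 1 - 41 / 1500 = zz 1 ^ 3 / 6
        rw [z1]
        linear_combination ((243/2000 : ℂ) * Complex.I - 81/2000) * Complex.I_sq
    · rw [iteratedDeriv_one, iteratedDeriv_one, dg, Polynomial.deriv]
      have : (0:ℂ) ^ 2 / 2 - Polynomial.eval 0 (Polynomial.derivative
        (Polynomial.C (-13 / 100 : ℂ) * Polynomial.X - Polynomial.C (41 / 1500))) = ((13 / 100 : ℝ) : ℂ) := by
        simp; norm_num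
      rw [this, Complex.norm_real]; norm_num
  · intro j
    have : ‖zz 0‖ ≤ 1 := by
      rw [z0, ← sq_le_sq₀ (norm_nonneg _) zero_le_one, Complex.sq_norm, Complex.normSq_apply]
      norm_num
    fin_cases j
    · exact this
    · show ‖zz 1‖ ≤ 1
      rw [← c0, Complex.norm_conj]; exact this
  · intro j
    fin_cases j
    · show 0 ≤ (zz 0).re
      rw [z0]; norm_num
    · show 0 ≤ (zz 1).re
      rw [z1]; norm_num
  · intro w _
    rw [Finset.card_filter, Finset.card_filter, Fin.sum_univ_two, Fin.sum_univ_two, add_comm]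
    have e0 : zz 0 = starRingEnd ℂ w ↔ zz 1 = w := by
      constructor
      · intro h; rw [← c0, h, Complex.conj_conj]
      · intro h; rw [← h, c1]
    have e1 : zz 1 = starRingEnd ℂ w ↔ zz 0 = w := by
      constructor
      · intro h; rw [← c1, h, Complex.conj_conj]
      · intro h; rw [← h, c0]
    simp only [e0, e1]
  · intro w hw
    have e0 : zz 0 ≠ w := by
      rintro rfl; rw [z0] at hw; norm_num at hw
    have e1 : zz 1 ≠ w := by
      rintro rfl; rw [z1] at hw; norm_num at hw
    rw [Finset.card_filter, Fin.sum_univ_two]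
    simp [e0, e1]

end Pool.Agent.Results.MP_987215_an.Q2False
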